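import Mathlib
import Pool.Agent.R129.CG

/-!
# Unlabelled convex geometries (helper file for MP_0c861e, Q2)
-/

namespace Pool.Agent.K7.H21.CG

open Pool.Agent.R129.CG

/-- The family transported along an equivalence. -/
def tr {X Z : Type} (e : X ≃ Z) (G : Set (Set X)) : Set (Set Z) := {D | e ⁻¹' D ∈ G}

lemma mem_tr {X Z : Type} (e : X ≃ Z) (G : Set (Set X)) (D : Set Z) :
    D ∈ tr e G ↔ e ⁻¹' D ∈ G := Iff.rfl

lemma tr_trans {X Y Z : Type} (e : X ≃ Y) (f : Y ≃ Z) (G : Set (Set X)) :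
    tr (e.trans f) G = tr f (tr e G) := rfl

lemma tr_symm {X Y : Type} (e : X ≃ Y) (G : Set (Set X)) : tr e.symm (tr e G) = G := by
  ext D
  rw [mem_tr, mem_tr, ← Set.preimage_comp]
  simp

lemma tr_symm' {X Y : Type} (e : X ≃ Y) (G : Set (Set Y)) : tr e (tr e.symm G) = G :=
  tr_symm e.symm G

lemma tr_cg {X Z : Type} (e : X ≃ Z) {G : Set (Set X)} (hG : IsCG G) : IsCG (tr e G) :=
  isCG_image e hG

lemma iso_iff {X Z : Type} (G : Set (Set X)) (H : Set (Set Z)) :
    Iso G H ↔ ∃ e : X ≃ Z, tr e G = H := by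
  constructor
  · rintro ⟨e, he⟩
    refine ⟨e, ?_⟩
    ext D
    rw [mem_tr, he, e.image_preimage]
  · rintro ⟨e, rfl⟩
    refine ⟨e, fun D => ?_⟩
    rw [mem_tr, e.preimage_image]

lemma iso_refl {X : Type} (G : Set (Set X)) : Iso G G := ⟨Equiv.refl _, fun D => by simp⟩

lemma iso_symm {X Z : Type} {G : Set (Set X)} {H : Set (Set Z)} (h : Iso G H) : Iso H G := by
  rw [iso_iff] at h ⊢
  obtain ⟨e, rfl⟩ := h
  exact ⟨e.symm, tr_symm e G⟩

lemma iso_trans {X Y Z : Type} {G : Set (Set X)} {H : Set (Set Y)} {K : Set (Set Z)}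
    (h : Iso G H) (h' : Iso H K) : Iso G K := by
  rw [iso_iff] at h h' ⊢
  obtain ⟨e, rfl⟩ := h
  obtain ⟨f, rfl⟩ := h'
  exact ⟨e.trans f, rfl⟩

/-- Isomorphism of the convex geometries on `{0, ..., n - 1}`. -/
def cgSetoid (n : ℕ) : Setoid {G : Set (Set (Fin n)) // IsCG G} where
  r G H := Iso G.1 H.1
  iseqv := ⟨fun G => iso_refl G.1, fun h => iso_symm h, fun h h' => iso_trans h h'⟩

/-- The isomorphism classes. -/
abbrev Cl (n : ℕ) : Type := Quotient (cgSetoid n)

instance (n : ℕ) : Finite (Cl n) := Quotient.finite _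

/-- A representative. -/
noncomputable def rep {n : ℕ} (q : Cl n) : Set (Set (Fin n)) := (Quotient.out q).1

lemma rep_cg {n : ℕ} (q : Cl n) : IsCG (rep q) := (Quotient.out q).2

lemma cl_eq {n : ℕ} {q q' : Cl n} (e : Fin n ≃ Fin n) (h : tr e (rep q) = rep q') : q = q' := by
  rw [← Quotient.out_eq q, ← Quotient.out_eq q']
  apply Quotient.sound
  exact (iso_iff _ _).2 ⟨e, h⟩

lemma exists_cls {Z : Type} [Finite Z] {n : ℕ} (hn : Nat.card Z = n) {G : Set (Set Z)}
    (hG : IsCG G) : ∃ (q : Cl n) (σ : Z ≃ Fin n), tr σ G = rep q := by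
  have τ : Z ≃ Fin n := Finite.equivFinOfCardEq hn
  let q : Cl n := Quotient.mk (cgSetoid n) ⟨tr τ G, tr_cg τ hG⟩
  have h1 : (cgSetoid n).r ⟨tr τ G, tr_cg τ hG⟩ (Quotient.out q) :=
    (cgSetoid n).symm (Quotient.mk_out (s := cgSetoid n) _)
  obtain ⟨e, he⟩ := (iso_iff _ _).1 h1
  exact ⟨q, τ.trans e, he⟩

/-- The number of isomorphism classes of convex geometries on `n` elements. -/
noncomputable def U (n : ℕ) : ℕ := Nat.card (Cl n)

/-- The classes of primitive geometries. -/
def prCl (n : ℕ) : Set (Cl n) := {q | ∃ G : {G : Set (Set (Fin n)) // IsCG G},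
  Quotient.mk (cgSetoid n) G = q ∧ Primitive G.1}

/-- labelled geometries -/
lemma labelled_le (n : ℕ) : num (Fin n) ≤ n.factorial * U n := by
  classical
  have h : ∀ G : {G : Set (Set (Fin n)) // IsCG G}, ∃ p : Equiv.Perm (Fin n) × Cl n,
      tr p.1 G.1 = rep p.2 := by
    intro G
    obtain ⟨q, σ, h⟩ := exists_cls (by simp : Nat.card (Fin n) = n) G.2
    exact ⟨(σ, q), h⟩
  choose p hp using h
  have hinj : Function.Injective p := by
    intro G H hGH
    apply Subtype.ext
    have h1 := hp G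
    rw [hGH, ← hp H] at h1
    have := congrArg (tr (p H).1.symm) h1
    rwa [tr_symm, tr_symm] at this
  have := Nat.card_le_card_of_injective p hinj
  rw [Nat.card_prod, Nat.card_eq_fintype_card (α := Equiv.Perm (Fin n)), Fintype.card_perm,
    Fintype.card_fin] at this
  exact this

/-- the transport of an extension -/
lemma tr_ext {X Z : Type} (e : X ≃ Z) (G H : Set (Set X)) :
    tr e.optionCongr (extFam G H) = extFam (tr e G) (tr e H) := by
  ext D
  rw [mem_tr]
  unfold extFam
  have h1 : (none ∈ e.optionCongr ⁻¹' D) ↔ none ∈ D := by simp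
  have h2 : some ⁻¹' (e.optionCongr ⁻¹' D) = e ⁻¹' (some ⁻¹' D) := by
    ext z
    simp
  simp only [Set.mem_ofPred_eq, h1, h2, mem_tr]

lemma option_perm {X : Type} (ρ : Option X ≃ Option X) (h : ρ none = none) :
    ∃ e : X ≃ X, ρ = e.optionCongr := by
  classical
  refine ⟨Equiv.removeNone ρ, Equiv.ext (fun x => ?_)⟩
  rcases x with _ | x
  · rw [h]; rfl
  · have hx : ρ (some x) ≠ none := by
      intro h1
      have := ρ.injective (h1.trans h.symm)
      simp at this
    obtain ⟨y, hy⟩ := Option.ne_none_iff_exists'.1 hx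
    have := Equiv.removeNone_some ρ ⟨y, hy⟩
    rw [← this]
    rfl

lemma tr_ncard {X Z : Type} (e : X ≃ Z) (G : Set (Set X)) : (tr e G).ncard = G.ncard := by
  have : tr e G = (fun D : Set X => e '' D) '' G := by
    ext D
    rw [mem_tr]
    constructor
    · intro h
      exact ⟨_, h, e.image_preimage D⟩
    · rintro ⟨F, hF, rfl⟩
      simp only [e.preimage_image]
      exact hF
  rw [this, Set.ncard_image_of_injective _ e.injective.image_injective]

/-- Adding a point. -/
lemma U_succ (n : ℕ) : 2 ^ n * U n ≤ (n + 1) * U (n + 1) := by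
  classical
  have hch : ∀ (q : Cl n) (i : Fin (2 ^ n)),
      ∃ H0, Good (rep q) H0 ∧ H0.ncard = i.val + 1 := fun q i =>
    exists_good (rep_cg q) (i.val + 1) (by omega) (by
      rw [Nat.card_eq_fintype_card, Fintype.card_fin]; exact i.2)
  choose H0 h1 h2 using hch
  have h3 : ∀ p : Fin (2 ^ n) × Cl n, ∃ r : Cl (n + 1) × (Option (Fin n) ≃ Fin (n + 1)),
      tr r.2 (extFam (rep p.2) (H0 p.2 p.1)) = rep r.1 := by
    intro p
    obtain ⟨q, σ, h⟩ := exists_cls (by simp : Nat.card (Option (Fin n)) = n + 1)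
      (extFam_cg (rep_cg p.2) (h1 p.2 p.1))
    exact ⟨(q, σ), h⟩
  choose r hr using h3
  have hinj : Function.Injective (fun p : Fin (2 ^ n) × Cl n => (((r p).2 none), (r p).1)) := by
    rintro ⟨i, q⟩ ⟨j, q'⟩ h
    simp only [Prod.mk.injEq] at h
    obtain ⟨e1, e2⟩ := h
    have a1 := hr (i, q)
    have a2 := hr (j, q')
    rw [e2, ← a2] at a1
    simp only at a1
    have a3 : tr ((r (i, q)).2.trans (r (j, q')).2.symm) (extFam (rep q) (H0 q i)) =
        extFam (rep q') (H0 q' j) := by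
      rw [tr_trans, a1, tr_symm]
    obtain ⟨e, he⟩ := option_perm ((r (i, q)).2.trans (r (j, q')).2.symm) (by
      simp only [Equiv.trans_apply]
      rw [e1, Equiv.symm_apply_apply])
    rw [he, tr_ext] at a3
    obtain ⟨b1, b2⟩ := extFam_inj a3
    have b3 : q = q' := cl_eq e b1
    subst b3
    have b4 : i.val + 1 = j.val + 1 := by rw [← h2 q i, ← h2 q j, ← b2, tr_ncard]
    have b5 : i = j := Fin.ext (by omega)
    rw [b5]
  have := Nat.card_le_card_of_injective _ hinj
  rw [Nat.card_prod, Nat.card_prod, Nat.card_eq_fintype_card (α := Fin _), Fintype.card_fin,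
    Nat.card_eq_fintype_card (α := Fin _), Fintype.card_fin] at this
  exact this

lemma trace_tr {Z W : Type} (ε : Z ≃ W) (G : Set (Set Z)) {A : Set Z} {B : Set W} (η : A ≃ B)
    (h : ∀ a : A, ((η a : B) : W) = ε a) : trace (tr ε G) B = tr η (trace G A) := by
  ext E
  rw [mem_tr]
  unfold trace
  constructor
  · rintro ⟨D, hD, rfl⟩
    refine ⟨_, hD, ?_⟩
    ext a
    simp [h a]
  · rintro ⟨D, hD, hE⟩
    refine ⟨ε.symm ⁻¹' D, ?_, ?_⟩
    · rw [mem_tr, ← Set.preimage_comp]
      simpa using hD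
    · ext b
      have h1 : η.symm b ∈ η ⁻¹' E ↔ ((η.symm b : A) : Z) ∈ D := by rw [hE]; rfl
      have h2 : ε.symm (b : W) = ((η.symm b : A) : Z) := by
        rw [Equiv.symm_apply_eq, ← h, Equiv.apply_symm_apply]
      simp only [Set.mem_preimage, Equiv.apply_symm_apply] at h1
      rw [Set.mem_preimage, Set.mem_preimage, h2, ← h1]

/-- The classes with a module of size `j`. -/
def modCl (n j : ℕ) : Set (Cl n) := {q | ∃ S : Set (Fin n), S.ncard = j ∧ IsModule (rep q) S}

lemma modCl_le (n j : ℕ) (hj : 1 ≤ j) (hjn : j ≤ n) :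
    (modCl n j).ncard ≤ U j * ((n + 1 - j) * U (n + 1 - j)) := by
  classical
  have H : ∀ q : modCl n j, ∃ (S : Set (Fin n)) (q1 : Cl j) (σ1 : S ≃ Fin j)
      (q2 : Cl (n + 1 - j))
      (σ2 : (insert ((σ1.symm ⟨0, hj⟩ : S) : Fin n) Sᶜ : Set (Fin n)) ≃ Fin (n + 1 - j)),
      IsModule (rep q.1) S ∧ tr σ1 (trace (rep q.1) S) = rep q1 ∧
      tr σ2 (trace (rep q.1) (insert ((σ1.symm ⟨0, hj⟩ : S) : Fin n) Sᶜ)) = rep q2 := by
    rintro ⟨q, S, hS, hM⟩
    obtain ⟨q1, σ1, h1⟩ := exists_cls (n := j) (Z := S) (by rw [Nat.card_coe_set_eq]; exact hS)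
      (trace_cg (rep_cg q) S)
    have hcard : Nat.card (insert ((σ1.symm ⟨0, hj⟩ : S) : Fin n) Sᶜ : Set (Fin n)) =
        n + 1 - j := by
      rw [Nat.card_coe_set_eq, Set.ncard_insert_of_notMem (by simp), Set.ncard_compl,
        Nat.card_eq_fintype_card, Fintype.card_fin]
      omega
    obtain ⟨q2, σ2, h2⟩ := exists_cls hcard
      (trace_cg (rep_cg q) (insert ((σ1.symm ⟨0, hj⟩ : S) : Fin n) Sᶜ))
    exact ⟨S, q1, σ1, q2, σ2, hM, h1, h2⟩
  choose S q1 σ1 q2 σ2 hM h1 h2 using H
  have hinj : Function.Injective (fun q : modCl n j =>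
      (q1 q, (σ2 q ⟨(((σ1 q).symm ⟨0, hj⟩ : S q) : Fin n), Set.mem_insert _ _⟩, q2 q))) := by
    intro q q' h
    simp only [Prod.mk.injEq] at h
    obtain ⟨e1, e2, e3⟩ := h
    -- notation
    set y : Fin n := (((σ1 q).symm ⟨0, hj⟩ : S q) : Fin n) with hy
    set y' : Fin n := (((σ1 q').symm ⟨0, hj⟩ : S q') : Fin n) with hy'
    have hyS : y ∈ S q := ((σ1 q).symm ⟨0, hj⟩).2
    have hyS' : y' ∈ S q' := ((σ1 q').symm ⟨0, hj⟩).2
    let ε1 : S q ≃ S q' := (σ1 q).trans (σ1 q').symm
    let ε2 := (σ2 q).trans (σ2 q').symm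
    have a1 : tr ε1 (trace (rep q.1) (S q)) = trace (rep q'.1) (S q') := by
      change tr ((σ1 q).trans (σ1 q').symm) _ = _
      rw [tr_trans, h1 q, e1, ← h1 q', tr_symm]
    have a2 : tr ε2 (trace (rep q.1) (insert y (S q)ᶜ)) = trace (rep q'.1) (insert y' (S q')ᶜ) := by
      change tr ((σ2 q).trans (σ2 q').symm) _ = _
      rw [tr_trans, h2 q, e3, ← h2 q', tr_symm]
    have b1 : ((ε1 ⟨y, hyS⟩ : S q') : Fin n) = y' := by
      change (((σ1 q').symm (σ1 q ⟨y, hyS⟩) : S q') : Fin n) = y'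
      have : σ1 q ⟨y, hyS⟩ = ⟨0, hj⟩ := by
        have : (⟨y, hyS⟩ : S q) = (σ1 q).symm ⟨0, hj⟩ := Subtype.ext rfl
        rw [this, Equiv.apply_symm_apply]
      rw [this]
    have b2 : ((ε2 ⟨y, Set.mem_insert _ _⟩ : (insert y' (S q')ᶜ : Set (Fin n))) : Fin n) = y' := by
      change (((σ2 q').symm (σ2 q ⟨y, Set.mem_insert _ _⟩) :
        (insert y' (S q')ᶜ : Set (Fin n))) : Fin n) = y'
      rw [e2, Equiv.symm_apply_apply]
    -- the glued bijection
    let f : Fin n → Fin n := fun x => if h : x ∈ S q then ((ε1 ⟨x, h⟩ : S q') : Fin n)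
      else ((ε2 ⟨x, Set.mem_insert_of_mem _ h⟩ : (insert y' (S q')ᶜ : Set (Fin n))) : Fin n)
    have fS : ∀ (x : Fin n) (h : x ∈ S q), f x = ((ε1 ⟨x, h⟩ : S q') : Fin n) := by
      intro x h
      simp only [f, h, dif_pos]
    have fN : ∀ (x : Fin n) (h : x ∉ S q), f x =
        ((ε2 ⟨x, Set.mem_insert_of_mem _ h⟩ : (insert y' (S q')ᶜ : Set (Fin n))) : Fin n) := by
      intro x h
      simp only [f, h, dif_neg, not_false_eq_true]
    have fS' : ∀ x, x ∈ S q → f x ∈ S q' := by
      intro x h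
      rw [fS x h]
      exact (ε1 ⟨x, h⟩).2
    have fN' : ∀ x, x ∉ S q → f x ∉ S q' := by
      intro x h
      rw [fN x h]
      have h3 := (ε2 ⟨x, Set.mem_insert_of_mem _ h⟩).2
      rcases h3 with h3 | h3
      · exfalso
        have h4 : ε2 ⟨x, Set.mem_insert_of_mem _ h⟩ = ε2 ⟨y, Set.mem_insert _ _⟩ :=
          Subtype.ext (h3.trans b2.symm)
        have h5 := ε2.injective h4
        have h6 : x = y := congrArg Subtype.val h5
        exact h (h6 ▸ hyS)
      · exact h3
    have finj : Function.Injective f := by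
      intro a b hab
      by_cases ha : a ∈ S q
      · by_cases hb : b ∈ S q
        · rw [fS a ha, fS b hb] at hab
          have := ε1.injective (Subtype.ext hab)
          exact congrArg Subtype.val this
        · exact absurd (hab ▸ fS' a ha) (fN' b hb)
      · by_cases hb : b ∈ S q
        · exact absurd (hab ▸ fS' b hb) (fN' a ha)
        · rw [fN a ha, fN b hb] at hab
          have := ε2.injective (Subtype.ext hab)
          exact congrArg Subtype.val this
    let ε : Fin n ≃ Fin n := Equiv.ofBijective f (Finite.injective_iff_bijective.1 finj)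
    have hε : ∀ x, ε x = f x := fun x => rfl
    have c1 : trace (tr ε (rep q.1)) (S q') = trace (rep q'.1) (S q') := by
      rw [← a1]
      apply trace_tr
      intro a
      rw [hε, fS a.1 a.2]
    have c2 : trace (tr ε (rep q.1)) (insert y' (S q')ᶜ) =
        trace (rep q'.1) (insert y' (S q')ᶜ) := by
      rw [← a2]
      apply trace_tr
      rintro ⟨a, ha⟩
      rw [hε]
      by_cases hS : a ∈ S q
      · have : a = y := by
          rcases ha with ha | ha
          · exact ha
          · exact absurd hS ha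
        subst this
        rw [b2, fS _ hS, b1]
      · rw [fN a hS]
    have c3 : IsModule (tr ε (rep q.1)) (S q') := by
      have h3 := module_iso (G := tr ε (rep q.1)) (H := rep q.1) ε.symm (fun D => by
        rw [mem_tr, Equiv.image_symm_eq_preimage]) (hM q)
      have h4 : ε.symm ⁻¹' (S q) = S q' := by
        ext x
        obtain ⟨z, rfl⟩ := ε.surjective x
        rw [Set.mem_preimage, Equiv.symm_apply_apply, hε]
        constructor
        · exact fS' z
        · intro h5
          by_contra h6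
          exact fN' z h6 h5
      rwa [h4] at h3
    have c4 := determined c3 (hM q') hyS' c1 c2
    exact Subtype.ext (cl_eq ε c4)
  have := Nat.card_le_card_of_injective _ hinj
  rw [Nat.card_prod, Nat.card_prod, Nat.card_eq_fintype_card (α := Fin _), Fintype.card_fin,
    Nat.card_coe_set_eq] at this
  exact this

/-- The number of the classes which are not primitive. -/
noncomputable def NP (n : ℕ) : ℕ := ((prCl n)ᶜ).ncard

lemma U_eq (n : ℕ) : U n = (prCl n).ncard + NP n := by
  unfold U NP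
  rw [Set.ncard_add_ncard_compl]

lemma NP_le (n : ℕ) : NP n ≤ ∑ j ∈ Finset.range n,
    (if 2 ≤ j then U j * ((n + 1 - j) * U (n + 1 - j)) else 0) := by
  classical
  have h1 : (prCl n)ᶜ ⊆ ⋃ j ∈ (Finset.range n).filter (fun j => 2 ≤ j), modCl n j := by
    intro q hq
    have h2 : ¬ Primitive (rep q) := by
      intro h
      exact hq ⟨Quotient.out q, Quotient.out_eq q, h⟩
    obtain ⟨S, hS1, hS2, hS3⟩ := exists_module h2
    rw [Set.mem_iUnion₂]
    refine ⟨S.ncard, ?_, S, rfl, hS3⟩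
    have := Set.ncard_lt_card hS2
    rw [Nat.card_eq_fintype_card, Fintype.card_fin] at this
    rw [Finset.mem_filter, Finset.mem_range]
    exact ⟨this, hS1⟩
  have h3 := (Set.ncard_le_ncard h1 (Set.toFinite _)).trans (Finset.set_ncard_biUnion_le _ _)
  refine h3.trans ?_
  rw [Finset.sum_filter]
  apply Finset.sum_le_sum
  intro j hj
  rw [Finset.mem_range] at hj
  split_ifs with h
  · exact modCl_le n j (by omega) hj.le
  · exact le_rfl

end Pool.Agent.K7.H21.CG
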